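import Pool.Agent.H38.RB.Targets

/-! # CNTA: the first count -/

set_option autoImplicit false

namespace Pool.Agent.H38.RB

lemma cnta_ht {x : Fin 3 → ℤ} (hx : Adm x) : (1 : ℝ) ≤ (ht x : ℝ) := by
  have h1 : 1 ≤ (x 0).natAbs := Int.natAbs_pos.2 (hx.1 0)
  have h2 : 1 ≤ ht x := h1.trans (le_max_left _ _)
  exact_mod_cast h2

lemma cnta_mono {κ κ' : ℝ} (h : κ ≤ κ') (T : Finset ℕ) : Sol κ T ⊆ Sol κ' T := by
  rintro x ⟨hx, hp⟩
  exact ⟨hx, hp.trans (mul_le_mul_of_nonneg_right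
    (Real.rpow_le_rpow_of_exponent_le (cnta_ht hx) h) (Nat.cast_nonneg _))⟩

lemma cnta_div {t p : ℕ} (ht : Squarefree t) (hp : p ∈ t.primeFactors) :
    ∃ m : ℕ, t = p * m ∧ Squarefree m ∧ m.primeFactors = t.primeFactors.erase p := by
  obtain ⟨m, rfl⟩ := Nat.dvd_of_mem_primeFactors hp
  have hpp := Nat.prime_of_mem_primeFactors hp
  rw [Nat.squarefree_mul_iff] at ht
  refine ⟨m, rfl, ht.2.2, ?_⟩
  rw [ht.1.primeFactors_mul, hpp.primeFactors]
  have h1 : p ∉ m.primeFactors := by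
    intro h
    have h2 := Nat.dvd_of_mem_primeFactors h
    have h3 := Nat.eq_one_of_dvd_coprimes ht.1 (dvd_refl p) h2
    exact hpp.one_lt.ne' h3
  rw [← Finset.insert_eq, Finset.erase_insert h1]

/-- the union of finite sets indexed by a finset -/
lemma cnta_union {α : Type} (F : Finset ℕ) (S : ℕ → Set α) (b : ℕ → ℝ)
    (h : ∀ t, (S t).Finite ∧ ((S t).ncard : ℝ) ≤ b t) :
    (⋃ t ∈ F, S t).Finite ∧ ((⋃ t ∈ F, S t).ncard : ℝ) ≤ ∑ t ∈ F, b t := by
  classical
  have hf : (⋃ t ∈ F, S t).Finite := F.finite_toSet.biUnion fun t _ => (h t).1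
  refine ⟨hf, ?_⟩
  have h1 : (⋃ t ∈ F, S t) = ((F.biUnion fun t => (h t).1.toFinset : Finset α) : Set α) := by
    ext x
    simp
  rw [h1, Set.ncard_coe_finset]
  calc (((F.biUnion fun t => (h t).1.toFinset).card : ℕ) : ℝ)
      ≤ ((∑ t ∈ F, ((h t).1.toFinset).card : ℕ) : ℝ) := by
        exact_mod_cast Finset.card_biUnion_le
    _ = ∑ t ∈ F, ((S t).ncard : ℝ) := by
        push_cast
        refine Finset.sum_congr rfl fun t _ => ?_
        exact congrArg _ (Set.ncard_eq_toFinset_card _ (h t).1).symm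
    _ ≤ _ := Finset.sum_le_sum fun t _ => (h t).2

theorem CNTA (hQR : T_QR) (hDEL : T_DEL) (hCOM : T_COM) (hFEW : T_FEW) : T_CNTA := by
  intro κ₁ hκ₁
  set κ : ℝ := max κ₁ 0 with hκdef
  have hκ0 : 0 ≤ κ := le_max_right _ _
  have hκ : κ < 1 := max_lt hκ₁ one_pos
  obtain ⟨K, hK⟩ : ∃ K : ℕ, 6 ≤ (1 - κ) * K := by
    obtain ⟨K, hK⟩ := exists_nat_ge (6 / (1 - κ))
    exact ⟨K, by rwa [div_le_iff₀' (by linarith)] at hK⟩
  set κ' : ℝ := (1 + κ) / 2 with hκ'def
  have hκ' : κ' < 1 := by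
    rw [hκ'def]
    linarith
  obtain ⟨C0, hC0, hQ0⟩ := hQR κ hκ
  obtain ⟨C1, hC1, hQ1⟩ := hQR κ' hκ'
  obtain ⟨Cc, hCc, hcom⟩ := hCOM C1 hC1
  have hB : 1 ≤ Cc + 1 := by linarith
  obtain ⟨Cf, hCf, hfew⟩ := hFEW C0 (Cc + 1) K hC0 hB
  set D : ℝ := C0 * Cf + C1 * Cc * 2 ^ Cc + Cf with hD
  have hp0 : 0 ≤ C0 * Cf := by positivity
  have hp1 : 0 ≤ C1 * Cc * (2 : ℝ) ^ Cc := by positivity
  refine ⟨D, by positivity, ?_⟩
  intro X hX
  have hX0 : 0 < X := by linarith
  have hL1 : 1 ≤ Real.log X := by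
    rw [Real.le_log_iff_exp_le hX0]
    have := Real.exp_one_lt_d9
    linarith
  have hL2 : 2 ≤ Real.log X := by
    rw [Real.le_log_iff_exp_le hX0]
    have h1 := Real.exp_one_lt_d9
    have h2 : Real.exp 2 = Real.exp 1 * Real.exp 1 := by
      rw [← Real.exp_add]
      norm_num
    rw [h2]
    nlinarith [Real.exp_pos 1]
  have hLL : 1 ≤ Real.log (Real.log X) := by
    rw [Real.le_log_iff_exp_le (by linarith), Real.le_log_iff_exp_le hX0]
    have h4 : Real.exp (Real.exp 1) ≤ Real.exp (11 / 4) := by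
      refine Real.exp_le_exp.2 ?_
      have h1 := Real.exp_one_lt_d9
      linarith
    have h10 : Real.exp (11 / 4) ^ 4 = Real.exp 1 ^ 11 := by
      rw [← Real.exp_nat_mul, ← Real.exp_nat_mul]
      congr 1
      norm_num
    have h12 : Real.exp 1 ^ 11 ≤ (2719 / 1000 : ℝ) ^ 11 := by
      refine pow_le_pow_left₀ (Real.exp_pos 1).le ?_ 11
      have h1 := Real.exp_one_lt_d9
      linarith
    have h13 : (2719 / 1000 : ℝ) ^ 11 ≤ 16 ^ 4 := by norm_num
    have h8 : Real.exp (11 / 4) ≤ 16 := by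
      by_contra h
      have h11 : (16 : ℝ) ^ 4 < Real.exp (11 / 4) ^ 4 :=
        pow_lt_pow_left₀ (not_le.1 h) (by norm_num) (by norm_num)
      rw [h10] at h11
      linarith
    linarith
  set L : ℝ := Real.log X with hLdef
  set y : ℝ := L ^ (Cc + 1) with hy
  have hL0 : 0 < L := by linarith
  have hy0 : 0 < y := Real.rpow_pos_of_pos hL0 _
  have hy1 : 1 ≤ y := Real.one_le_rpow hL1 (by linarith)
  set F : Finset ℕ := (sq X).filter (fun t : ℕ =>
      (t.primeFactors.filter fun p : ℕ => (Real.log X) ^ (Cc + 1) ≤ (p : ℝ)).card < K) with hF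
  have hprime : ∀ t : ℕ, ∀ p ∈ t.primeFactors, p.Prime :=
    fun t p hp => Nat.prime_of_mem_primeFactors hp
  obtain ⟨hU0, hU0c⟩ := cnta_union F (fun t => Sol κ t.primeFactors)
    (fun t => C0 ^ (t.primeFactors.card + 1)) fun t => hQ0 _ (hprime t)
  obtain ⟨hU1, hU1c⟩ := cnta_union (sq (X / y)) (fun t => Sol κ' t.primeFactors)
    (fun t => C1 ^ (t.primeFactors.card + 1)) fun t => hQ1 _ (hprime t)
  have hsub : {x | ∃ t : ℕ, Squarefree t ∧ (t : ℝ) ≤ X ∧ x ∈ Sol κ₁ t.primeFactors} ⊆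
      (⋃ t ∈ F, Sol κ t.primeFactors) ∪ ⋃ t ∈ sq (X / y), Sol κ' t.primeFactors := by
    rintro x ⟨t, ht, htX, hx⟩
    have hx' : x ∈ Sol κ t.primeFactors := cnta_mono (le_max_left _ _) _ hx
    have ht1 : 1 ≤ t := Nat.one_le_iff_ne_zero.2 ht.ne_zero
    have htsq : t ∈ sq X := by
      unfold sq
      rw [Finset.mem_filter, Finset.mem_Icc]
      exact ⟨⟨ht1, Nat.le_floor htX⟩, ht⟩
    by_cases hcard : (t.primeFactors.filter fun p : ℕ =>
        (Real.log X) ^ (Cc + 1) ≤ (p : ℝ)).card < K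
    · left
      rw [Set.mem_iUnion₂]
      exact ⟨t, Finset.mem_filter.2 ⟨htsq, hcard⟩, hx'⟩
    · right
      obtain ⟨p, hp, hxp⟩ := hDEL κ K t.primeFactors _ x hκ0 hκ hK (hprime t)
        (Finset.filter_subset _ _) (not_lt.1 hcard) hx'
      rw [Finset.mem_filter] at hp
      obtain ⟨m, hm, hmsq, hmp⟩ := cnta_div ht hp.1
      rw [← hmp] at hxp
      rw [Set.mem_iUnion₂]
      refine ⟨m, ?_, hxp⟩
      unfold sq
      rw [Finset.mem_filter, Finset.mem_Icc]
      refine ⟨⟨Nat.one_le_iff_ne_zero.2 hmsq.ne_zero, Nat.le_floor ?_⟩, hmsq⟩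
      rw [le_div_iff₀ hy0]
      have h1 : (m : ℝ) * y ≤ (m : ℝ) * p := mul_le_mul_of_nonneg_left hp.2 (Nat.cast_nonneg _)
      have h2 : (m : ℝ) * p = t := by
        rw [hm]
        push_cast
        ring
      linarith
  have hfin := hU0.union hU1
  refine ⟨hfin.subset hsub, ?_⟩
  have h1 : (({x | ∃ t : ℕ, Squarefree t ∧ (t : ℝ) ≤ X ∧ x ∈ Sol κ₁ t.primeFactors}.ncard : ℕ) :
      ℝ) ≤ ((⋃ t ∈ F, Sol κ t.primeFactors).ncard : ℝ) +
        ((⋃ t ∈ sq (X / y), Sol κ' t.primeFactors).ncard : ℝ) := by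
    exact_mod_cast (Set.ncard_le_ncard hsub hfin).trans (Set.ncard_union_le _ _)
  have h2 : ∑ t ∈ F, C0 ^ (t.primeFactors.card + 1) ≤
      C0 * (Cf * X * Real.log L ^ Cf / L) := by
    have h3 := hfew X hX
    simp_rw [pow_succ']
    rw [← Finset.mul_sum]
    exact mul_le_mul_of_nonneg_left h3 (by linarith)
  have h4 : ∑ t ∈ sq (X / y), C1 ^ (t.primeFactors.card + 1) ≤
      C1 * Cc * 2 ^ Cc * (X / L) := by
    by_cases hXy : 1 ≤ X / y
    · have h3 := hcom (X / y) hXy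
      simp_rw [pow_succ']
      rw [← Finset.mul_sum]
      have h5 : Real.log (X / y) + 2 ≤ 2 * L := by
        have h6 : Real.log (X / y) ≤ L := by
          refine Real.log_le_log (by positivity) ?_
          exact div_le_self hX0.le hy1
        linarith
      have h7 : (Real.log (X / y) + 2) ^ Cc ≤ (2 * L) ^ Cc :=
        Real.rpow_le_rpow (by linarith [Real.log_nonneg hXy]) h5 hCc.le
      have h8 : X / y * (2 * L) ^ Cc = 2 ^ Cc * (X / L) := by
        rw [Real.mul_rpow (by norm_num) hL0.le, hy, Real.rpow_add hL0, Real.rpow_one]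
        have : L ^ Cc ≠ 0 := (Real.rpow_pos_of_pos hL0 _).ne'
        field_simp
      calc C1 * ∑ i ∈ sq (X / y), C1 ^ i.primeFactors.card
          ≤ C1 * (Cc * (X / y) * (Real.log (X / y) + 2) ^ Cc) :=
            mul_le_mul_of_nonneg_left h3 (by linarith)
        _ ≤ C1 * (Cc * (X / y) * (2 * L) ^ Cc) := by
            refine mul_le_mul_of_nonneg_left (mul_le_mul_of_nonneg_left h7 (by positivity))
              (by linarith)
        _ = C1 * Cc * (X / y * (2 * L) ^ Cc) := by ring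
        _ = _ := by
            rw [h8]
            ring
    · have h3 : sq (X / y) = ∅ := by
        unfold sq
        rw [Nat.floor_eq_zero.2 (not_le.1 hXy)]
        rfl
      rw [h3, Finset.sum_empty]
      positivity
  have hLLD : Real.log L ^ Cf ≤ Real.log L ^ D :=
    Real.rpow_le_rpow_of_exponent_le hLL (by linarith)
  have hLLD1 : 1 ≤ Real.log L ^ D := Real.one_le_rpow hLL (by positivity)
  have hXL : 0 ≤ X / L := by positivity
  calc _ ≤ _ := h1
    _ ≤ C0 * (Cf * X * Real.log L ^ Cf / L) + C1 * Cc * 2 ^ Cc * (X / L) :=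
        add_le_add (hU0c.trans h2) (hU1c.trans h4)
    _ ≤ C0 * Cf * (X / L) * Real.log L ^ D + C1 * Cc * 2 ^ Cc * (X / L) * Real.log L ^ D := by
        refine add_le_add ?_ ?_
        · have : C0 * (Cf * X * Real.log L ^ Cf / L) = C0 * Cf * (X / L) * Real.log L ^ Cf := by
            ring
          rw [this]
          exact mul_le_mul_of_nonneg_left hLLD (by positivity)
        · exact le_mul_of_one_le_right (by positivity) hLLD1
    _ = (C0 * Cf + C1 * Cc * 2 ^ Cc) * (X / L * Real.log L ^ D) := by ring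
    _ ≤ D * (X / L * Real.log L ^ D) := by
        refine mul_le_mul_of_nonneg_right (by linarith) (by positivity)
    _ = _ := by ring

end Pool.Agent.H38.RB
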